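import Mathlib
import Pool.Agent.TH816.RP.M2

/-!
# A positive proportion of the words of residue classes occurs among consecutive primes

The Lemke Oliver-Soundararajan heuristics (and already the prime tuples conjecture) predict that for every modulus
`q` each of the `φ(q) ^ (m + 1)` words of `m + 1` reduced residue classes is the word of the residues of
`m + 1` consecutive primes infinitely often. We prove this for a positive proportion of the words, which depends on
`m` only.
-/

set_option autoImplicit false

namespace Pool.Agent.Results.MP_a3b3a7_nt.WordsOfResidues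

open Pool.Agent.TH816.RP

/-- The word `w` of `m + 1` reduced residue classes modulo `q` occurs: for infinitely many `n` the consecutive
primes `p_n, ..., p_(n+m)` are congruent to `w 0, ..., w m` modulo `q` and `p_(n+m) - p_n ≤ C q`, where
`p_n = Nat.nth Nat.Prime n` are the primes in increasing order. -/
def Occurs (q m C : ℕ) (w : Fin (m + 1) → (ZMod q)ˣ) : Prop :=
  {n : ℕ | (∀ i : Fin (m + 1), ((Nat.nth Nat.Prime (n + i) : ℕ) : ZMod q) = w i) ∧
    Nat.nth Nat.Prime (n + m) ≤ Nat.nth Nat.Prime n + C * q}.Infinite

/-- For `m ≥ 2` and `K ≥ exp (4 m + 0.58)` there is `C` such that for every `q ≥ 1` at least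
`φ(q) ^ (m + 1) / (K choose (m + 1))` of the words of `m + 1` reduced classes modulo `q` are, infinitely often, the
words of the residues of `m + 1` consecutive primes in an interval of length `C q`. -/
theorem result (m K : ℕ) (hm : 2 ≤ m) (hK : Real.exp (4 * m + 29 / 50) ≤ K) :
    ∃ C : ℕ, ∀ (q : ℕ) [NeZero q],
      q.totient ^ (m + 1) ≤ K.choose (m + 1) * {w : Fin (m + 1) → (ZMod q)ˣ | Occurs q m C w}.ncard :=
  words m K hm hK

end Pool.Agent.Results.MP_a3b3a7_nt.WordsOfResidues
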